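import Pool.Agent.V7H41.CD.Spec

/-!
# The numeric piece NUM
-/

set_option autoImplicit false

namespace Pool.Agent.V7H63.CD

open Pool.Agent.V7H41.CD

/-- comparison of powers: from `m ^ 13 ≤ n` and `n₀ ≤ n` -/
theorem big {n m : ℕ} (hn : 10 ^ 90 ≤ n) (hm : m ^ 13 ≤ n) :
    2 * 153664 * m ^ 8 ≤ n ∧ 2 * 153664 ^ 3 * m ^ 23 ≤ n ^ 2 := by
  constructor
  · have h1 : (2 * 153664 * m ^ 8) ^ 13 ≤ n ^ 13 := by
      calc (2 * 153664 * m ^ 8) ^ 13 = (2 * 153664) ^ 13 * (m ^ 13) ^ 8 := by ring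
        _ ≤ (10 ^ 90) ^ 5 * n ^ 8 := by
            refine Nat.mul_le_mul (by norm_num) (Nat.pow_le_pow_left hm 8)
        _ ≤ n ^ 5 * n ^ 8 := Nat.mul_le_mul_right _ (Nat.pow_le_pow_left hn 5)
        _ = n ^ 13 := by ring
    exact (Nat.pow_le_pow_iff_left (by norm_num)).1 h1
  · have h1 : (2 * 153664 ^ 3 * m ^ 23) ^ 13 ≤ (n ^ 2) ^ 13 := by
      calc (2 * 153664 ^ 3 * m ^ 23) ^ 13 = (2 * 153664 ^ 3) ^ 13 * (m ^ 13) ^ 23 := by ring
        _ ≤ (10 ^ 90) ^ 3 * n ^ 23 := by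
            refine Nat.mul_le_mul (by norm_num) (Nat.pow_le_pow_left hm 23)
        _ ≤ n ^ 3 * n ^ 23 := Nat.mul_le_mul_right _ (Nat.pow_le_pow_left hn 3)
        _ = (n ^ 2) ^ 13 := by ring
    exact (Nat.pow_le_pow_iff_left (by norm_num)).1 h1

theorem choose_fact (m e : ℕ) (hm : 1 ≤ m) :
    (((m + 1).choose (e + 1) : ℕ) : ℝ) * ((e + 1).factorial : ℝ) ≤ (2 * (m : ℝ)) ^ (e + 1) := by
  have h1 : (m + 1).choose (e + 1) * (e + 1).factorial ≤ (2 * m) ^ (e + 1) := by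
    rw [mul_comm, ← Nat.descFactorial_eq_factorial_mul_choose]
    exact (Nat.descFactorial_le_pow _ _).trans (Nat.pow_le_pow_left (by omega) _)
  exact_mod_cast h1

theorem t_NUM : S_NUM := by
  refine ⟨10 ^ 90, ?_⟩
  intro n m e z hn hm hmn he hem hz hzn
  obtain ⟨k1, k2⟩ := big hn hmn
  obtain ⟨s, hs⟩ : ∃ s : ℕ, s = z / (16 * (e + 2)) := ⟨_, rfl⟩
  have hpos : 0 < 16 * (e + 2) := by positivity
  have d1 : s * (16 * (e + 2)) ≤ z := hs ▸ Nat.div_mul_le_self _ _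
  have d2 : z < (16 * (e + 2)) * (s + 1) := by
    rw [hs]
    exact Nat.lt_mul_div_succ z hpos
  have hm3 : m ≤ m ^ 3 := by
    calc m = m ^ 1 := (pow_one m).symm
      _ ≤ m ^ 3 := Nat.pow_le_pow_right hm (by norm_num)
  have hm38 : m ^ 3 ≤ m ^ 8 := Nat.pow_le_pow_right hm (by norm_num)
  have hm68 : m ^ 6 ≤ m ^ 8 := Nat.pow_le_pow_right hm (by norm_num)
  have d3 : z ≤ 48 * m * (s + 1) := by
    have : 16 * (e + 2) ≤ 48 * m := by omega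
    exact d2.le.trans (Nat.mul_le_mul_right _ this)
  have d4 : n ≤ 48 * m ^ 3 * (s + 1) + 2 * m := by
    calc n ≤ m ^ 2 * z + 2 * m := hz
      _ ≤ m ^ 2 * (48 * m * (s + 1)) + 2 * m := by
          have := Nat.mul_le_mul_left (m ^ 2) d3
          omega
      _ = 48 * m ^ 3 * (s + 1) + 2 * m := by ring
  have hs1 : 1 ≤ s := by
    by_contra hcon
    have : s = 0 := by omega
    rw [this] at d4
    omega
  have d5 : n ≤ 98 * m ^ 3 * s := by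
    have h1 : m ^ 3 * 1 ≤ m ^ 3 * s := Nat.mul_le_mul_left _ hs1
    nlinarith
  have hm8 : 1 ≤ m ^ 8 := Nat.one_le_pow _ _ hm
  -- in the reals
  have hM : (1 : ℝ) ≤ (m : ℝ) := by exact_mod_cast hm
  have hN : (0 : ℝ) < (n : ℝ) := by
    have : 0 < n := lt_of_lt_of_le (by positivity) hn
    exact_mod_cast this
  have r5 : (n : ℝ) ≤ 98 * (m : ℝ) ^ 3 * s := by exact_mod_cast d5
  have r6 : (n : ℝ) ^ 2 ≤ 9604 * (m : ℝ) ^ 6 * (s : ℝ) ^ 2 := by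
    calc (n : ℝ) ^ 2 ≤ (98 * (m : ℝ) ^ 3 * s) ^ 2 := pow_le_pow_left₀ hN.le r5 2
      _ = 9604 * (m : ℝ) ^ 6 * (s : ℝ) ^ 2 := by ring
  have rk1 : 2 * 153664 * (m : ℝ) ^ 8 ≤ n := by exact_mod_cast k1
  have rk2 : 2 * 153664 ^ 3 * (m : ℝ) ^ 23 ≤ (n : ℝ) ^ 2 := by exact_mod_cast k2
  have d6 : 4 * z ≤ s ^ 2 := by
    have h1 : 38416 * (m : ℝ) ^ 6 ≤ n := by
      have h2 : (m : ℝ) ^ 6 ≤ (m : ℝ) ^ 8 := pow_le_pow_right₀ hM (by norm_num)
      linarith [pow_nonneg (le_trans zero_le_one hM) 8]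
    have hM6 : (0 : ℝ) < (m : ℝ) ^ 6 := by positivity
    have h3 : 4 * (n : ℝ) ≤ (s : ℝ) ^ 2 := by
      have h4 : 38416 * (m : ℝ) ^ 6 * n ≤ 9604 * (m : ℝ) ^ 6 * (s : ℝ) ^ 2 := by
        calc 38416 * (m : ℝ) ^ 6 * n ≤ n * n := mul_le_mul_of_nonneg_right h1 hN.le
          _ = (n : ℝ) ^ 2 := by ring
          _ ≤ _ := r6
      have h5 : (9604 * (m : ℝ) ^ 6) * (4 * (n : ℝ)) ≤ (9604 * (m : ℝ) ^ 6) * (s : ℝ) ^ 2 := by
        linarith
      exact le_of_mul_le_mul_left h5 (by positivity)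
    have h6 : 4 * n ≤ s ^ 2 := by exact_mod_cast h3
    omega
  obtain ⟨x, hx⟩ : ∃ x : ℝ, x = (s : ℝ) ^ 2 / 8 := ⟨_, rfl⟩
  have hx0 : 0 ≤ x := by rw [hx]; positivity
  have hxN : (n : ℝ) ^ 2 ≤ 76832 * (m : ℝ) ^ 6 * x := by
    rw [hx]
    linarith
  have hW : (0 : ℝ) < (76832 * (m : ℝ) ^ 6) ^ (e + 1) := by positivity
  have hcf := choose_fact m e hm
  have hxp : ((n : ℝ) ^ 2) ^ (e + 1) ≤ (76832 * (m : ℝ) ^ 6) ^ (e + 1) * x ^ (e + 1) := by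
    rw [← mul_pow]
    exact pow_le_pow_left₀ (by positivity) hxN _
  -- the reduction
  have red : ∀ Y : ℝ, 0 ≤ Y → (153664 * (m : ℝ) ^ 7) ^ (e + 1) * Y ≤ ((n : ℝ) ^ 2) ^ (e + 1) →
      (((m + 1).choose (e + 1) : ℕ) : ℝ) * ((e + 1).factorial : ℝ) * Y ≤ x ^ (e + 1) := by
    intro Y hY h1
    apply le_of_mul_le_mul_left _ hW
    refine le_trans ?_ (h1.trans hxp)
    calc (76832 * (m : ℝ) ^ 6) ^ (e + 1) *
        ((((m + 1).choose (e + 1) : ℕ) : ℝ) * ((e + 1).factorial : ℝ) * Y)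
        ≤ (76832 * (m : ℝ) ^ 6) ^ (e + 1) * ((2 * (m : ℝ)) ^ (e + 1) * Y) :=
          mul_le_mul_of_nonneg_left (mul_le_mul_of_nonneg_right hcf hY) hW.le
      _ = (153664 * (m : ℝ) ^ 7) ^ (e + 1) * Y := by
          rw [← mul_assoc, ← mul_pow]
          congr 2
          ring
  refine ⟨s, hs1, ?_, d6, ?_, ?_⟩
  · calc 16 * s * (e + 2) = s * (16 * (e + 2)) := by ring
      _ ≤ z := d1
  · rw [← hx]
    have h1 := red (2 * (m : ℝ) * (n : ℝ) ^ (e + 1)) (by positivity) (by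
      calc (153664 * (m : ℝ) ^ 7) ^ (e + 1) * (2 * (m : ℝ) * (n : ℝ) ^ (e + 1))
          ≤ (153664 * (m : ℝ) ^ 7) ^ (e + 1) * ((2 * (m : ℝ)) ^ (e + 1) * (n : ℝ) ^ (e + 1)) := by
            refine mul_le_mul_of_nonneg_left (mul_le_mul_of_nonneg_right ?_ (by positivity))
              (by positivity)
            have h2 : (1 : ℝ) ≤ 2 * (m : ℝ) := by linarith
            calc 2 * (m : ℝ) = (2 * (m : ℝ)) ^ 1 := (pow_one _).symm
              _ ≤ (2 * (m : ℝ)) ^ (e + 1) := pow_le_pow_right₀ h2 (by omega)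
        _ = (2 * 153664 * (m : ℝ) ^ 8) ^ (e + 1) * (n : ℝ) ^ (e + 1) := by
            rw [← mul_assoc, ← mul_pow]
            congr 2
            ring
        _ ≤ (n : ℝ) ^ (e + 1) * (n : ℝ) ^ (e + 1) :=
            mul_le_mul_of_nonneg_right (pow_le_pow_left₀ (by positivity) rk1 _) (by positivity)
        _ = ((n : ℝ) ^ 2) ^ (e + 1) := by
            rw [← mul_pow]
            congr 1
            ring)
    calc _ = (((m + 1).choose (e + 1) : ℕ) : ℝ) * ((e + 1).factorial : ℝ) *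
          (2 * (m : ℝ) * (n : ℝ) ^ (e + 1)) := by ring
      _ ≤ _ := h1
  · intro he2
    rw [← hx]
    obtain ⟨f, rfl⟩ : ∃ f, e = f + 2 := ⟨e - 2, by omega⟩
    have h3 : 153664 * (m : ℝ) ^ 7 ≤ n := by
      have h4 : (m : ℝ) ^ 7 ≤ (m : ℝ) ^ 8 := pow_le_pow_right₀ hM (by norm_num)
      linarith [pow_nonneg (le_trans zero_le_one hM) 8]
    have h1 := red (2 * (m : ℝ) ^ 2 * (n : ℝ) ^ (f + 2 + 2)) (by positivity) (by
      calc (153664 * (m : ℝ) ^ 7) ^ (f + 2 + 1) * (2 * (m : ℝ) ^ 2 * (n : ℝ) ^ (f + 2 + 2))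
          = (2 * 153664 ^ 3 * (m : ℝ) ^ 23) * ((153664 * (m : ℝ) ^ 7) ^ f *
              (n : ℝ) ^ (f + 4)) := by ring
        _ ≤ (n : ℝ) ^ 2 * ((n : ℝ) ^ f * (n : ℝ) ^ (f + 4)) := by
            refine mul_le_mul rk2 ?_ (by positivity) (by positivity)
            exact mul_le_mul_of_nonneg_right (pow_le_pow_left₀ (by positivity) h3 _) (by positivity)
        _ = ((n : ℝ) ^ 2) ^ (f + 2 + 1) := by
            rw [← pow_add, ← pow_add, ← pow_mul]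
            congr 1
            ring)
    calc _ = (((m + 1).choose (f + 2 + 1) : ℕ) : ℝ) * ((f + 2 + 1).factorial : ℝ) *
          (2 * (m : ℝ) ^ 2 * (n : ℝ) ^ (f + 2 + 2)) := by ring
      _ ≤ _ := h1

end Pool.Agent.V7H63.CD
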